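import Pool.Agent.Lib.HS85.Frame
import Pool.Agent.Lib.HS32.EKit
import Pool.Agent.Lib.HS76.Diag
import Pool.Agent.Lib.HS.Top

/-! The local product structure given by a flat parallel projection. -/

open scoped Topology ComplexOrder Matrix
open Set Filter Metric

noncomputable section

namespace Pool.Agent.HS85

open Pool.Agent.Lib.SV (E)
open Pool.Agent.Lib.HS32

variable {n : ℕ} {G : Type*} [NormedAddCommGroup G] [NormedSpace ℂ G]

/-- A matrix as an operator. -/
def op : Mat n ≃ₐ[ℂ] (E n →L[ℂ] E n) :=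
  Matrix.toLinAlgEquiv'.trans (Module.End.toContinuousLinearMap (E n))

theorem op_apply (A : Mat n) (v : E n) : op A v = A *ᵥ v := rfl

theorem op_jm (ψ : E n → E n) (z : E n) : op (jm ψ z) = fderiv ℂ ψ z := by
  ext1 v
  funext i
  conv_rhs => rw [pi_eq_sum_univ' v]
  simp [op_apply, jm, Matrix.mulVec, dotProduct, mul_comm]

/-- The linear map with given values on the basis. -/
def lin (A : Fin n → G) : E n →L[ℂ] G :=
  ∑ k, ContinuousLinearMap.smulRightL ℂ (E n) G (ContinuousLinearMap.proj k) (A k)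

theorem lin_apply (A : Fin n → G) (v : E n) : lin A v = ∑ k, v k • A k := by simp [lin]

theorem lin_single (A : Fin n → G) (k : Fin n) : lin A (Pi.single k 1) = A k := by
  simp [lin_apply, Pi.single_apply]

theorem mul_smul' (a : ℂ) (A B : E n →L[ℂ] E n) : A * a • B = a • (A * B) := by
  ext1 v; simp

theorem smul_mul' (a : ℂ) (A B : E n →L[ℂ] E n) : a • A * B = a • (A * B) := by
  ext1 v; simp

theorem hasFDerivAt_lin {A : Fin n → E n → G} {A' : Fin n → Fin n → G} {z : E n}
    (h : ∀ k, HasFDerivAt (A k) (lin fun l => A' l k) z) :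
    HasFDerivAt (fun w => lin fun k => A k w) (lin fun l => lin (A' l)) z := by
  refine (HasFDerivAt.fun_sum fun k (_ : k ∈ Finset.univ) =>
    (ContinuousLinearMap.smulRightL ℂ (E n) G (ContinuousLinearMap.proj k)).hasFDerivAt.comp z
      (h k)).congr_fderiv ?_
  ext1 v
  ext1 w
  simp only [lin_apply, sum_apply, smul_apply, Finset.smul_sum, ContinuousLinearMap.comp_apply,
    ContinuousLinearMap.smulRightL_apply_apply, ContinuousLinearMap.smulRight_apply,
    ContinuousLinearMap.proj_apply]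
  rw [Finset.sum_comm]
  simp only [smul_comm (w _)]

theorem hasFDerivAt_op {T : E n → Mat n} {z : E n} (hT : SmM T z) (h : ∀ l, dMb l T z = 0) :
    HasFDerivAt (fun w => op (T w)) (lin fun k => op (dM k T z)) z := by
  have h1 : ∀ i j, HasFDerivAt (fun w => T w i j) (lin fun k => dM k T z i j) z := by
    intro i j
    refine hasFDerivAt_of_restrictScalars ℝ (hT.diff i j).hasFDerivAt ?_
    ext1 v
    have h2 : ∀ l, dzb l (fun w => T w i j) z = 0 := fun l => congrFun (congrFun (h l) i) j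
    simp [fderiv_eq_sum, h2, lin_apply, dM, mul_comm]
  have e : ∀ A : Mat n, op A = ∑ i, ∑ j, A i j • op (Matrix.single i j 1) := fun A => by
    conv_lhs => rw [Matrix.matrix_eq_sum_single A]
    simp only [map_sum, ← map_smul, Matrix.smul_single, smul_eq_mul, mul_one]
  simp only [fun w => e (T w)]
  refine (HasFDerivAt.fun_sum fun i (_ : i ∈ Finset.univ) => HasFDerivAt.fun_sum
    fun j (_ : j ∈ Finset.univ) => (h1 i j).smul_const _).congr_fderiv ?_
  ext1 v
  simp only [fun k => e (dM k T z), lin_apply, sum_apply, ContinuousLinearMap.smulRight_apply,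
    Finset.smul_sum, Finset.sum_smul, smul_assoc]
  rw [Finset.sum_comm (f := fun k i => ∑ j, v k • dM k T z i j • op (Matrix.single i j 1))]
  exact Finset.sum_congr rfl fun i _ => Finset.sum_comm

theorem pr_mul_pr (k : ℕ) : (pr k * pr k : Mat n) = pr k := by
  rw [pr, Matrix.diagonal_mul_diagonal]
  congr 1; funext i; split_ifs <;> simp

theorem pr_ct (k : ℕ) : (pr k : Mat n)ᴴ = pr k := by
  rw [pr, Matrix.diagonal_conjTranspose]
  congr 1; funext i; simp only [Pi.star_apply]; split_ifs <;> simp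

/-- An orthonormal basis adapted to an orthogonal projection. -/
theorem adapt {H P : Mat n} {k : ℕ} (hk : k ≤ n) (hH : H.PosDef) (hh : (H * P).IsHermitian)
    (hP : P * P = P) (hd : (1 + (1 : ℝ) • P).det = ((1 + 1 : ℝ) : ℂ) ^ k) :
    ∃ U : Mat n, Uᴴ * U = H ∧ U * P = pr k * U := by
  classical
  obtain ⟨W, lam, h1, h2⟩ := Pool.Agent.Lib.HS76.simul_diag hH hh
  have h3 : W * (Wᴴ * H) = 1 := mul_eq_one_comm.mp h1
  set V := Wᴴ * H with hV
  rw [← Matrix.mul_assoc, ← hV] at h2
  have h4 : V * P = Matrix.diagonal (fun i => (lam i : ℂ)) * V := by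
    rw [← h2, Matrix.mul_assoc (V * P), h3, Matrix.mul_one]
  have h5 : ∀ i, lam i = 0 ∨ lam i = 1 := by
    intro i
    have h6 : Matrix.diagonal (fun i => (lam i : ℂ)) * Matrix.diagonal (fun i => (lam i : ℂ)) =
        Matrix.diagonal (fun i => (lam i : ℂ)) := by
      conv_lhs => rw [← Matrix.mul_one (Matrix.diagonal _), ← h2, Matrix.mul_one]
      calc V * P * W * (V * P * W) = V * (P * (W * V) * P) * W := by simp only [Matrix.mul_assoc]
        _ = _ := by rw [h3, Matrix.mul_one, hP, h2]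
    have h7 := congrFun (congrFun h6 i) i
    simp only [Matrix.diagonal_mul_diagonal, Matrix.diagonal_apply_eq] at h7
    have h8 : lam i * (lam i - 1) = 0 := by
      have : lam i * lam i = lam i := by exact_mod_cast h7
      linarith
    exact (mul_eq_zero.1 h8).imp id sub_eq_zero.1
  have h6 : (Finset.univ.filter fun i => lam i = 1).card = k := by
    have h7 : V * (1 + (1 : ℝ) • P) * W = Matrix.diagonal fun i => if lam i = 1 then 2 else 1 := by
      rw [one_smul, Matrix.mul_add, Matrix.add_mul, Matrix.mul_one, h1, h2, ← Matrix.diagonal_one,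
        Matrix.diagonal_add]
      congr 1; funext i
      rcases h5 i with h | h <;> simp [h]; norm_num
    have h8 := congrArg Matrix.det h7
    rw [Matrix.det_mul, Matrix.det_mul, mul_right_comm, ← Matrix.det_mul, h1, Matrix.det_one,
      one_mul, hd, Matrix.det_diagonal, Finset.prod_ite, Finset.prod_const, Finset.prod_const_one,
      mul_one] at h8
    have h9 : (2 : ℕ) ^ k = 2 ^ (Finset.univ.filter fun i => lam i = 1).card := by
      have : ((1 + 1 : ℝ) : ℂ) = 2 := by norm_num
      rw [this] at h8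
      exact_mod_cast h8
    exact (Nat.pow_right_injective le_rfl h9).symm
  obtain ⟨σ, hσ⟩ : ∃ σ : Equiv.Perm (Fin n), ∀ i, (i.val < k ↔ lam (σ i) = 1) := by
    have hc : Fintype.card {i : Fin n // i.val < k} = Fintype.card {i // lam i = 1} := by
      rw [Fintype.card_subtype, Fintype.card_subtype, h6, Fin.card_filter_val_lt, min_eq_right hk]
    refine ⟨(Fintype.equivOfCardEq hc).extendSubtype, fun i => ⟨fun hi => ?_, fun hi => ?_⟩⟩
    · exact (Fintype.equivOfCardEq hc).extendSubtype_mem i hi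
    · by_contra h
      exact (Fintype.equivOfCardEq hc).extendSubtype_not_mem i h hi
  refine ⟨V.submatrix σ id, ?_, ?_⟩
  · rw [Matrix.conjTranspose_submatrix, Matrix.submatrix_mul_equiv, Matrix.submatrix_id_id, hV,
      Matrix.conjTranspose_mul, Matrix.conjTranspose_conjTranspose, hH.1.eq, Matrix.mul_assoc, h3,
      Matrix.mul_one]
  · ext i j
    have h7 := congrFun (congrFun h4 (σ i)) j
    rw [Matrix.diagonal_mul] at h7
    rw [pr, Matrix.diagonal_mul, Matrix.submatrix_apply, id]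
    refine h7.trans ?_
    congr 1
    split_ifs with h
    · simp [(hσ i).1 h]
    · simp [(h5 (σ i)).resolve_right fun h' => h ((hσ i).2 h')]

/-- The hypotheses at a point of the coordinate space. -/
structure FlAt (H P : E n → Mat n) (z : E n) : Prop where
  sH : SmM H z
  sP : SmM P z
  pos : (H z).PosDef
  cl : ClM H z
  hol : ∀ l, dMb l P z = 0
  herm : (H z * P z).IsHermitian
  par : ∀ i, dM i P z = P z * gam H i z - gam H i z * P z
  idem : P z * P z = P z
  flat : ∀ a b, th H a b z * P z = 0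

variable {H P : E n → Mat n} {z : E n}

theorem FlAt.det (h : FlAt H P z) : (H z).det ≠ 0 := h.pos.det_pos.ne'

theorem FlAt.dMH (h : FlAt H P z) (k : Fin n) : dM k H z = H z * gam H k z := by
  rw [gam, Matrix.mul_nonsing_inv_cancel_left _ _ h.det.isUnit]

theorem flat_op (h' : ∀ᶠ w in 𝓝 z, FlAt H P w) :
    FlatAt (fun w => lin fun k => op (P w * gam H k w)) (fun w => op (P w)) z ∧
    op (P z) * op (P z) = op (P z) ∧
    (∀ ξ η, (lin fun k => op (P z * gam H k z)) ξ η = (lin fun k => op (P z * gam H k z)) η ξ) ∧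
    ∀ ξ η, fderiv ℂ (fun w => op (P w)) z (op (P z) ξ) (op (P z) η) =
      fderiv ℂ (fun w => op (P w)) z (op (P z) η) (op (P z) ξ) := by
  have h := h'.self_of_nhds
  have hg : ∀ k, SmM (gam H k) z := h.sH.gam h.det
  have hb : ∀ k l, dMb l (fun w => P w * gam H k w) z = 0 := by
    intro k l
    have a1 : dMb l (dM k P) z = 0 := by
      rw [← dM_dMb h.sP, dM_congr (T := fun _ => 0) (h'.mono fun w hw => hw.hol l), dM_const]
    have a2 := h.flat k l
    rw [th, neg_mul, neg_eq_zero] at a2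
    rw [dMb_congr (h'.mono fun w hw => hw.par k), dMb_sub (h.sP.mul (hg k)) ((hg k).mul h.sP),
      dMb_mul (hg k) h.sP, a2, h.hol, mul_zero, add_zero, sub_zero] at a1
    exact a1
  have hL := hasFDerivAt_lin fun k => hasFDerivAt_op (h.sP.mul (hg k)) (hb k)
  have hP := hasFDerivAt_op h.sP h.hol
  have hpp : op (P z) * op (P z) = op (P z) := by rw [← map_mul, h.idem]
  set Γ : E n →L[ℂ] E n →L[ℂ] E n := lin fun k => op (gam H k z) with hΓ
  have hΓs : ∀ ξ η, Γ ξ η = Γ η ξ := by
    intro ξ η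
    funext i
    have a1 : ∀ k j, gam H k z i j = gam H j z i k := fun k j => by
      simp only [gam, Matrix.mul_apply, h.cl _ j k]
    simp only [hΓ, lin_apply, sum_apply, smul_apply, op_apply, Finset.sum_apply, Pi.smul_apply,
      Matrix.mulVec, dotProduct, smul_eq_mul, Finset.mul_sum]
    rw [Finset.sum_comm]
    exact Finset.sum_congr rfl fun k _ => Finset.sum_congr rfl fun j _ => by rw [a1]; ring
  have e1 : ∀ ξ, (lin fun k => op (P z * gam H k z)) ξ = op (P z) * Γ ξ := fun ξ => by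
    simp only [hΓ, lin_apply, map_mul, Finset.mul_sum, mul_smul']
  have e2 : ∀ ξ, fderiv ℂ (fun w => op (P w)) z ξ = op (P z) * Γ ξ - Γ ξ * op (P z) := fun ξ => by
    simp only [hP.fderiv, hΓ, lin_apply, h.par, map_sub, map_mul, Finset.mul_sum, Finset.sum_mul,
      mul_smul', smul_mul', smul_sub, Finset.sum_sub_distrib]
  have e3 : ∀ l k, P z * (dM l (fun w => P w * gam H k w) z + P z * gam H l z * (P z * gam H k z)) =
      P z * ((H z)⁻¹ * dM l (dM k H) z) := by
    intro l k
    rw [dM_congr (h'.mono fun w hw => hw.dMH k), dM_mul h.sH (hg k), h.dMH, Matrix.mul_assoc (H z),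
      ← Matrix.mul_add (H z), Matrix.nonsing_inv_mul_cancel_left _ _ h.det.isUnit,
      dM_mul h.sP (hg k), h.par]
    have a1 : ∀ A : Mat n, P z * (P z * A) = P z * A := fun A => by rw [← Matrix.mul_assoc, h.idem]
    simp only [Matrix.mul_add, Matrix.sub_mul, Matrix.mul_sub, Matrix.mul_assoc, a1]
    abel
  have e4 : ∀ ξ η, op (P z) * (fderiv ℂ (fun w => lin fun k => op (P w * gam H k w)) z ξ η +
      (lin fun k => op (P z * gam H k z)) ξ * (lin fun k => op (P z * gam H k z)) η) =
      ∑ l, ∑ k, (ξ l * η k) • op (P z * ((H z)⁻¹ * dM l (dM k H) z)) := by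
    intro ξ η
    rw [hL.fderiv]
    simp only [← e3, lin_apply, sum_apply, smul_apply, map_mul, map_add, Finset.sum_mul,
      Finset.mul_sum, Finset.smul_sum, mul_add, smul_add, Finset.sum_add_distrib, mul_smul',
      smul_mul', smul_smul]
    congr 1
    rw [Finset.sum_comm]
    simp only [mul_comm (η _)]
  refine ⟨⟨hL.differentiableAt, hP.differentiableAt, fun ξ => ?_, fun ξ η => ?_⟩, hpp,
    fun ξ η => ?_, fun ξ η => ?_⟩
  · rw [e1, e2, mul_sub, mul_sub, mul_one]
    simp only [← mul_assoc, hpp]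
  · rw [e4, e4, Finset.sum_comm]
    simp only [dM_dM h.sH, mul_comm (η _)]
  · rw [e1, e1, mul_apply_eq_comp, mul_apply_eq_comp, hΓs]
  · have a1 : ∀ v, op (P z) (op (P z) v) = op (P z) v := fun v => DFunLike.congr_fun hpp v
    simp only [e2, sub_apply, mul_apply_eq_comp, a1]
    rw [hΓs]

/-- The product chart in coordinates. -/
theorem prod_loc (hC : St_CHN) {x : E n} {k : ℕ} (hk : k ≤ n) (h : ∀ᶠ z in 𝓝 x, FlAt H P z)
    (hd : (1 + (1 : ℝ) • P x).det = ((1 + 1 : ℝ) : ℂ) ^ k) :
    ∃ χ : E n → E n, IsUnit (fderiv ℂ χ x) ∧ ∀ᶠ z in 𝓝 x, DifferentiableAt ℂ χ z ∧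
      jm χ z * P z = pr k * jm χ z ∧ H z * P z = (jm χ z)ᴴ * pr k * jm χ z := by
  have hx := h.self_of_nhds
  obtain ⟨U, hU1, hU2⟩ := adapt hk hx.pos hx.herm hx.idem hd
  have hU0 : U.det ≠ 0 := fun h0 => hx.det (by rw [← hU1, Matrix.det_mul, h0, mul_zero])
  have hUu : IsUnit (op U) := ((Matrix.isUnit_iff_isUnit_det U).2 hU0.isUnit).map op
  obtain ⟨χ, hχx, hχ⟩ := chart (h.eventually_nhds.mono fun _ hz => flat_op hz) (π := op (pr k)) hUu
    (by rw [← map_mul, pr_mul_pr]) (by rw [← map_mul, ← map_mul, hU2])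
  refine ⟨χ, hχx ▸ hUu, ?_⟩
  set K := jm χ with hK
  have hKx : K x = U := op.injective (by rw [op_jm, hχx])
  have h1 : ∀ᶠ z in 𝓝 x, SmM K z ∧ (∀ l, dMb l K z = 0) ∧ K z * P z = pr k * K z ∧
      ∀ i, dM i (fun w => pr k * K w) z = pr k * K z * (P z * gam H i z) := by
    filter_upwards [hχ, hχ.eventually_nhds] with z h1 h2
    obtain ⟨-, a1, -, a2, -⟩ := hC n χ z (h2.mono fun w hw => hw.1)
    refine ⟨a1, a2, op.injective (by simpa only [map_mul, hK, op_jm] using h1.2.1), fun i => ?_⟩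
    have a3 := hasFDerivAt_op ((smM_const (pr k)).mul a1) fun l => by
      rw [dMb_mul (smM_const _) a1, a2, dMb_const, zero_mul, mul_zero, add_zero]
    have a4 := h1.2.2 (Pi.single i 1)
    simp only [map_mul, op_jm] at a3
    rw [a3.fderiv, lin_single, lin_single] at a4
    exact op.injective (by simpa only [map_mul, hK, op_jm] using a4)
  have h2 : ∀ᶠ z in 𝓝 x, (K z).det ≠ 0 := h1.self_of_nhds.1.ev_det (hKx ▸ hU0)
  set e : E n → Mat n := fun w => (K w)⁻¹ * pr k with he
  have h3 : ∀ᶠ z in 𝓝 x, SmM e z ∧ K z * e z = pr k ∧ pr k * K z * e z = pr k ∧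
      e z * (pr k * K z) = P z ∧ P z * e z = e z := by
    filter_upwards [h1, h2] with z a1 a2
    have a3 : K z * e z = pr k := Matrix.mul_nonsing_inv_cancel_left _ _ a2.isUnit
    have a4 : pr k * K z * e z = pr k := by rw [Matrix.mul_assoc, a3, pr_mul_pr]
    have a5 : e z * (pr k * K z) = P z := by
      simp only [he]
      rw [Matrix.mul_assoc, ← Matrix.mul_assoc (pr k), pr_mul_pr, ← a1.2.2.1,
        Matrix.nonsing_inv_mul_cancel_left _ _ a2.isUnit]
    refine ⟨(a1.1.inv a2).mul (smM_const _), a3, a4, a5, ?_⟩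
    rw [← a5, Matrix.mul_assoc, a4]
    simp only [he]
    rw [Matrix.mul_assoc, pr_mul_pr]
  have hex : U * e x = pr k := hKx ▸ h3.self_of_nhds.2.1
  clear_value e
  have h4 : ∀ᶠ z in 𝓝 x, SmM (fun w => (e w)ᴴ * (H w * e w)) z ∧
      ∀ i, dM i (fun w => (e w)ᴴ * (H w * e w)) z = 0 := by
    filter_upwards [h, h1, h2, h3, h3.eventually_nhds] with z a0 a1 a2 a3 a4
    refine ⟨a3.1.ct.mul (a0.sH.mul a3.1), fun i => ?_⟩
    have b1 : dMb i e z = 0 := by
      have := dMb_mul (k := i) a1.1 a3.1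
      rw [dMb_congr (a4.mono fun w hw => hw.2.1), dMb_const, a1.2.1, zero_mul, zero_add] at this
      rw [← Matrix.nonsing_inv_mul_cancel_left _ (dMb i e z) a2.isUnit, ← this, mul_zero]
    have b2 : P z * (gam H i z * e z + dM i e z) = 0 := by
      have := dM_mul (k := i) ((smM_const (pr k)).mul a1.1) a3.1
      rw [dM_congr (a4.mono fun w hw => hw.2.2.1), dM_const, a1.2.2.2] at this
      have b3 := congrArg (fun A => e z * A) this
      simp only [Matrix.mul_add, mul_zero] at b3
      rw [← Matrix.mul_assoc (e z), ← Matrix.mul_assoc (e z), ← Matrix.mul_assoc (e z) _ (dM i e z),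
        a3.2.2.2.1, ← Matrix.mul_assoc (P z), a0.idem] at b3
      rw [Matrix.mul_add, ← Matrix.mul_assoc, b3]
    have b3 : (e z)ᴴ * H z = (e z)ᴴ * H z * P z := by
      rw [Matrix.mul_assoc, ← a0.herm.eq, Matrix.conjTranspose_mul, ← Matrix.mul_assoc,
        ← Matrix.conjTranspose_mul, a3.2.2.2.2, a0.pos.1.eq]
    rw [dM_mul a3.1.ct (a0.sH.mul a3.1), dM_ct a3.1, b1, dM_mul a0.sH a3.1, a0.dMH,
      Matrix.mul_assoc (H z), ← Matrix.mul_add (H z), ← Matrix.mul_assoc (e z)ᴴ, b3,
      Matrix.mul_assoc _ (P z), b2]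
    simp
  have h5 : ∀ᶠ z in 𝓝 x, (e z)ᴴ * (H z * e z) = pr k := by
    have a0 : ∀ᶠ z in 𝓝 x, ((e z)ᴴ * (H z * e z)).IsHermitian := by
      filter_upwards [h] with z hz
      rw [← Matrix.mul_assoc]
      exact Matrix.isHermitian_conjTranspose_mul_mul _ hz.pos.1
    obtain ⟨r, hr, hb⟩ := Metric.mem_nhds_iff.1 (h4.and a0.eventually_nhds)
    filter_upwards [ball_mem_nhds x hr] with z hz
    have a1 : (e x)ᴴ * (H x * e x) = pr k := by
      rw [← hU1, Matrix.mul_assoc, hex, ← Matrix.mul_assoc, ← Matrix.conjTranspose_mul, hex, pr_ct,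
        pr_mul_pr]
    rw [← a1]
    ext i j
    refine isOpen_ball.is_const_of_fderiv_eq_zero (𝕜 := ℝ)
      (f := fun w => ((e w)ᴴ * (H w * e w)) i j) (convex_ball x r).isPreconnected
      (fun w hw => ((hb hw).1.1.diff i j).differentiableWithinAt) (fun w hw => ?_) hz
      (mem_ball_self hr)
    ext1 v
    have b1 : ∀ l, dz l (fun w => ((e w)ᴴ * (H w * e w)) i j) w = 0 := fun l =>
      congrFun (congrFun ((hb hw).1.2 l) i) j
    have b2 : ∀ l, dzb l (fun w => ((e w)ᴴ * (H w * e w)) i j) w = 0 := fun l => by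
      have := dMb_herm (k := l) (hb hw).1.1 (hb hw).2
      rw [(hb hw).1.2, Matrix.conjTranspose_zero] at this
      exact congrFun (congrFun this i) j
    simp [fderiv_eq_sum, b1, b2]
  filter_upwards [hχ, h, h1, h3, h5] with z a0 a1 a2 a3 a4
  refine ⟨a0.1, a2.2.2.1, ?_⟩
  calc H z * P z = (P z)ᴴ * H z * P z := by
        rw [← a1.pos.1.eq, ← Matrix.conjTranspose_mul, a1.herm.eq, a1.pos.1.eq, Matrix.mul_assoc,
          a1.idem]
    _ = (pr k * K z)ᴴ * ((e z)ᴴ * (H z * e z)) * (pr k * K z) := by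
        rw [← a3.2.2.2.1, Matrix.conjTranspose_mul]; simp only [Matrix.mul_assoc]
    _ = _ := by
        rw [a4, Matrix.conjTranspose_mul, pr_ct, Matrix.mul_assoc _ (pr k) (pr k), pr_mul_pr,
          Matrix.mul_assoc, ← Matrix.mul_assoc (pr k), pr_mul_pr, Matrix.mul_assoc]

theorem st_PROD (hC : St_CHN) (hT : St_TR) : Pool.Agent.Lib.HS.St_PROD := by
  intro n M H P k hH hP x
  obtain ⟨e, he, hx⟩ := M.cov x
  have ht := e.open_target.mem_nhds (e.map_source hx)
  obtain ⟨χ, hu, hχ⟩ := prod_loc (H := H e) (P := P e) hC hP.le (by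
    filter_upwards [ht] with z hz
    exact ⟨hH.sm e he z hz, hP.en.sm e he z hz, hH.pos e he z hz, hH.cl e he z hz,
      hP.hol e he z hz, hP.herm e he z hz, hP.par e he z hz, hP.idem e he z hz,
      hP.flat e he z hz⟩) (hP.det 1 e he _ (e.map_source hx))
  obtain ⟨φ, rfl, h0, hs, hd, hi, hun⟩ := loc_inv (hχ.mono fun _ h => h.1) hu hχ
  have he' := M.sat e he φ hd hi
  have key : ∀ z ∈ (e.trans φ).target, P (e.trans φ) z = pr k ∧ H (e.trans φ) z * pr k = pr k := by
    intro z hz
    have hy := (e.trans φ).map_target hz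
    have hz' := (e.trans φ).right_inv hz
    set y := (e.trans φ).symm z
    have a1 := ((hT n M).2.2.2.2.2 e he φ hd hi y hy).1
    have a2 := hP.en.cmp _ he' e he y hy hy.1
    have a3 := hH.cmp _ he' e he y hy hy.1
    obtain ⟨-, a4, a5⟩ := hs hy.2
    have a6 : IsUnit (jm φ (e y)) := by
      have := (hun _ hy.2).map op.symm
      rwa [← op_jm, op.symm_apply_apply] at this
    beta_reduce at a2 a3
    rw [a1, hz'] at a2 a3
    simp only [OpenPartialHomeomorph.symm_symm] at a4 a5
    refine ⟨a6.mul_right_cancel (a2.symm.trans a4), ?_⟩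
    rw [a3, Matrix.mul_assoc, a4, Matrix.mul_assoc, Matrix.mul_assoc, ← Matrix.mul_assoc (H _ _)]
      at a5
    exact a6.mul_right_cancel (a6.star.mul_left_cancel a5)
  refine ⟨e.trans φ, ⟨he', fun z hz => (key z hz).1, fun z hz => (key z hz).2, fun z hz i hi => ?_⟩,
    hx, h0⟩
  ext a b
  rw [hH.cl _ he' z hz a b i]
  refine (dz_congr (g := fun _ => pr k a i) ?_).trans (by simp)
  filter_upwards [(e.trans φ).open_target.mem_nhds hz] with w hw
  rw [← (key w hw).2, pr, Matrix.mul_diagonal, if_pos hi, mul_one]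

end Pool.Agent.HS85
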