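import Pool.Agent.Lib.HS85.Frob

/-! Parallel frames, local inverses and the chart attached to a flat parallel projection. -/

open scoped Topology
open Set Filter Metric

noncomputable section

namespace Pool.Agent.HS85

open Pool.Agent.Lib.SV.H85

variable {V 𝔸 : Type*} [NormedAddCommGroup V] [NormedSpace ℂ V] [FiniteDimensional ℂ V]
  [NormedRing 𝔸] [NormedAlgebra ℂ 𝔸] [FiniteDimensional ℂ 𝔸]

/-- The hypotheses on a connection that is flat on the image of a projection. -/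
structure FlatAt (L : V → V →L[ℂ] 𝔸) (P : V → 𝔸) (z : V) : Prop where
  dL : DifferentiableAt ℂ L z
  dP : DifferentiableAt ℂ P z
  par : ∀ ξ, P z * L z ξ * (1 - P z) = P z * fderiv ℂ P z ξ
  fl : ∀ ξ η, P z * (fderiv ℂ L z ξ η + L z ξ * L z η) = P z * (fderiv ℂ L z η ξ + L z η * L z ξ)

theorem frame_zero {L : V → V →L[ℂ] 𝔸} {P : V → 𝔸} (h : ∀ᶠ z in 𝓝 (0 : V), FlatAt L P z) {T₀ : 𝔸}
    (h0 : T₀ * P 0 = T₀) : ∃ T : V → 𝔸, T 0 = T₀ ∧ ∀ᶠ z in 𝓝 (0 : V), DifferentiableAt ℂ T z ∧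
      T z * P z = T z ∧ ∀ ξ, fderiv ℂ T z ξ = T z * L z ξ := by
  have : CompleteSpace 𝔸 := FiniteDimensional.complete ℂ 𝔸
  obtain ⟨O, hO, hOo, hO0⟩ := _root_.eventually_nhds_iff.1 h
  set A : V × 𝔸 → V →L[ℂ] 𝔸 := fun q => (ContinuousLinearMap.mul ℂ 𝔸 q.2).comp (L q.1) with hA
  have hAd : ∀ q : V × 𝔸, q.1 ∈ O → HasFDerivAt A _ q := fun q hq =>
    ((ContinuousLinearMap.mul ℂ 𝔸).hasFDerivAt.comp q hasFDerivAt_snd).clm_comp
      ((hO _ hq).dL.hasFDerivAt.comp q hasFDerivAt_fst)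
  have hU : Prod.fst ⁻¹' O ∈ 𝓝 ((0 : V), T₀) := (hOo.preimage continuous_fst).mem_nhds hO0
  have hAU : DifferentiableOn ℂ A (Prod.fst ⁻¹' O) := fun q hq =>
    (hAd q hq).differentiableAt.differentiableWithinAt
  obtain ⟨r, hr, v, hv, hf⟩ := exists_ray A T₀ hU hAU
  have hmem : ∀ p ∈ ball ((0 : V), T₀) r, p.1 ∈ O := fun p hp =>
    (interior_subset (hf p hp).1 : (p.1, v p) ∈ Prod.fst ⁻¹' O)
  have hinv : ∀ p ∈ ball ((0 : V), T₀) r, p.2 = T₀ → v p * P p.1 = v p := by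
    intro p hp hp2
    have hl : ∀ s : ℝ, HasDerivAt (fun s : ℝ => (s : ℂ) • p.1) p.1 s := fun s => by
      simpa using (Complex.ofRealCLM.hasDerivAt (x := s)).smul_const p.1
    have key := ray_zero (g := fun s : ℝ => v (sc s p) * (1 - P ((s : ℂ) • p.1)))
      (g' := fun s : ℝ => fderiv ℂ v (sc s p) (p.1, 0) * (1 - P ((s : ℂ) • p.1)) +
        v (sc s p) * -fderiv ℂ P ((s : ℂ) • p.1) p.1)
      (B := fun s : ℝ => (ContinuousLinearMap.mul ℂ 𝔸).flip
        (L ((s : ℂ) • p.1) p.1 * (1 - P ((s : ℂ) • p.1)) - fderiv ℂ P ((s : ℂ) • p.1) p.1))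
      ?_ ?_ ?_ ?_
    · simpa [mul_sub, sub_eq_zero, eq_comm] using key
    · have hm : MapsTo (fun s : ℝ => (s : ℂ) • p.1) (Icc 0 1) O := fun s hs =>
        hmem _ (sc_mem hs hp)
      have hc : ContinuousOn (fun s : ℝ => (s : ℂ) • p.1) (Icc 0 1) := by fun_prop
      have hP : DifferentiableOn ℂ P O := fun z hz => (hO z hz).dP.differentiableWithinAt
      have hL : ContinuousOn L O := fun z hz => (hO z hz).dL.continuousAt.continuousWithinAt
      refine (ContinuousLinearMap.mul ℂ 𝔸).flip.continuous.comp_continuousOn ?_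
      exact (((hL.comp hc hm).clm_apply continuousOn_const).mul
        (continuousOn_const.sub (hP.continuousOn.comp hc hm))).sub
        (((continuousOn_fderiv hOo hP).comp hc hm).clm_apply continuousOn_const)
    · intro s hs
      have hq := sc_mem hs hp
      have h1 := (hv.differentiableAt (isOpen_ball.mem_nhds hq)).hasFDerivAt.restrictScalars ℝ
      have h2 := h1.comp_hasDerivAt s (hasDerivAt_sc p s)
      have h3 := (hO _ (hmem _ hq)).dP.hasFDerivAt.restrictScalars ℝ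
      have h4 := h3.comp_hasDerivAt s (hl s)
      exact h2.mul (h4.const_sub 1)
    · intro s hs
      have hq := sc_mem hs hp
      have h1 := (hO _ (hmem _ hq)).par p.1
      rw [(hf p hp).2.2 s hs]
      simp only [hA, sc_apply, ContinuousLinearMap.comp_apply, ContinuousLinearMap.mul_apply',
        ContinuousLinearMap.flip_apply] at h1 ⊢
      set w := v ((s : ℂ) • p.1, p.2)
      set Q := P ((s : ℂ) • p.1)
      set a := L ((s : ℂ) • p.1) p.1
      set b := fderiv ℂ P ((s : ℂ) • p.1) p.1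
      calc w * a * (1 - Q) + w * -b
          = w * (1 - Q) * (a * (1 - Q) - b) + w * (Q * a * (1 - Q) - Q * b) := by noncomm_ring
        _ = _ := by rw [h1, sub_self, mul_zero, add_zero]
    · simp only [sc_apply, Complex.ofReal_zero, zero_smul]
      rw [(hf p hp).2.1, hp2, mul_sub, mul_one, h0, sub_self]
  have hb : ∀ᶠ z in 𝓝 (0 : V), (z, T₀) ∈ ball ((0 : V), T₀) r :=
    (Continuous.tendsto (f := fun z : V => (z, T₀)) (by fun_prop) 0).eventually
      (ball_mem_nhds _ hr)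
  refine ⟨fun z => v (z, T₀), (hf _ (mem_ball_self hr)).2.1, ?_⟩
  filter_upwards [hb] with z hz
  have h1' := (hv.differentiableAt (isOpen_ball.mem_nhds hz)).hasFDerivAt
  have h1 := HasFDerivAt.comp (f := fun z : V => (z, T₀)) z h1' (hasFDerivAt_prodMk_left z T₀)
  refine ⟨h1.differentiableAt, hinv _ hz rfl, fun ξ => ?_⟩
  have h2 := full_of_ray hAU hv (fun q hq => ⟨(hf q hq).1, by
    simpa using (hf q hq).2.2 1 ⟨zero_le_one, le_rfl⟩⟩) hz ?_ ξ
  · exact (DFunLike.congr_fun h1.fderiv ξ).trans h2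
  · rintro s hs q rfl a b
    have hq := sc_mem hs hz
    have h3 := hinv _ hq rfl
    have h4 := (hO _ (hmem _ hq)).fl a b
    rw [(hAd ((s : ℂ) • z, v (sc s (z, T₀))) (hmem (sc s (z, T₀)) hq)).fderiv]
    simp only [hA, sc_apply] at h3 h4 ⊢
    set w := v ((s : ℂ) • z, T₀)
    have h5 := congrArg (fun x => w * x) h4
    simp only [← mul_assoc, h3] at h5
    simpa [mul_add, mul_assoc] using h5

omit [FiniteDimensional ℂ V] [FiniteDimensional ℂ 𝔸] in
theorem FlatAt.shift {L : V → V →L[ℂ] 𝔸} {P : V → 𝔸} {z x : V} (h : FlatAt L P (z + x)) :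
    FlatAt (fun w => L (w + x)) (fun w => P (w + x)) z :=
  ⟨(differentiableAt_comp_add_right _).2 h.dL, (differentiableAt_comp_add_right _).2 h.dP,
    by simpa only [fderiv_comp_add_right] using h.par,
    by simpa only [fderiv_comp_add_right] using h.fl⟩

/-- Parallel frames. -/
theorem frame {L : V → V →L[ℂ] 𝔸} {P : V → 𝔸} {x : V} (h : ∀ᶠ z in 𝓝 x, FlatAt L P z) {T₀ : 𝔸}
    (h0 : T₀ * P x = T₀) : ∃ T : V → 𝔸, T x = T₀ ∧ ∀ᶠ z in 𝓝 x, DifferentiableAt ℂ T z ∧
      T z * P z = T z ∧ ∀ ξ, fderiv ℂ T z ξ = T z * L z ξ := by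
  have h1 : Tendsto (fun q : V => q + x) (𝓝 0) (𝓝 x) :=
    Continuous.tendsto' (by fun_prop) _ _ (by simp)
  have h2 : Tendsto (fun q : V => q + -x) (𝓝 x) (𝓝 0) :=
    Continuous.tendsto' (by fun_prop) _ _ (by simp)
  obtain ⟨T, hT0, hT⟩ := frame_zero ((h1.eventually h).mono fun _ h => h.shift) (T₀ := T₀)
    (by simpa using h0)
  refine ⟨fun z => T (z + -x), by simpa using hT0, ?_⟩
  filter_upwards [h2.eventually hT] with z hz
  rw [fderiv_comp_add_right]
  exact ⟨(differentiableAt_comp_add_right _).2 hz.1, by simpa using hz.2.1, by simpa using hz.2.2⟩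

/-- The holomorphic inverse function theorem. -/
theorem loc_inv {f : V → V} {a : V} (hf : ∀ᶠ z in 𝓝 a, DifferentiableAt ℂ f z)
    (hu : IsUnit (fderiv ℂ f a)) {U : Set V} (hU : U ∈ 𝓝 a) :
    ∃ φ : OpenPartialHomeomorph V V, (φ : V → V) = f ∧ a ∈ φ.source ∧ φ.source ⊆ U ∧
      DifferentiableOn ℂ φ φ.source ∧ DifferentiableOn ℂ φ.symm φ.target ∧
      ∀ z ∈ φ.source, IsUnit (fderiv ℂ f z) := by
  have : CompleteSpace V := FiniteDimensional.complete ℂ V
  have h1 : ContDiffAt ℂ 1 f a := contDiffAt_nat (k := 1) hf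
  have hc : ContinuousAt (fderiv ℂ f) a := (h1.fderiv_right (m := 0) (by simp)).continuousAt
  have h2 : ∀ᶠ z in 𝓝 a, IsUnit (fderiv ℂ f z) := hc.eventually (Units.isOpen.mem_nhds hu)
  obtain ⟨O, hO, hOo, hOa⟩ := _root_.eventually_nhds_iff.1 (hf.and (h2.and hU))
  have he : ∀ z (hz : z ∈ O), HasFDerivAt f
      (ContinuousLinearEquiv.unitsEquiv ℂ V (hO z hz).2.1.unit : V →L[ℂ] V) z := fun z hz =>
    (hO z hz).1.hasFDerivAt
  set ψ := h1.toOpenPartialHomeomorph f (he a hOa) one_ne_zero with hψ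
  refine ⟨ψ.restrOpen O hOo, rfl, ⟨h1.mem_toOpenPartialHomeomorph_source _ _, hOa⟩,
    fun z hz => (hO z hz.2).2.2, fun z hz => (hO z hz.2).1.differentiableWithinAt, fun w hw => ?_,
    fun z hz => (hO z hz.2).2.1⟩
  exact ((ψ.restrOpen O hOo).hasFDerivAt_symm hw
    (he _ ((ψ.restrOpen O hOo).map_target hw).2)).differentiableAt.differentiableWithinAt

/-- The chart attached to a flat parallel projection. -/
theorem chart {L : V → V →L[ℂ] V →L[ℂ] V} {P : V → V →L[ℂ] V} {x : V}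
    (h : ∀ᶠ z in 𝓝 x, FlatAt L P z ∧ P z * P z = P z ∧ (∀ ξ η, L z ξ η = L z η ξ) ∧
      ∀ ξ η, fderiv ℂ P z (P z ξ) (P z η) = fderiv ℂ P z (P z η) (P z ξ))
    {U π : V →L[ℂ] V} (hU : IsUnit U) (hπ : π * π = π) (hUP : U * P x = π * U) :
    ∃ χ : V → V, fderiv ℂ χ x = U ∧ ∀ᶠ z in 𝓝 x, DifferentiableAt ℂ χ z ∧
      fderiv ℂ χ z * P z = π * fderiv ℂ χ z ∧
      ∀ ξ, fderiv ℂ (fun w => π * fderiv ℂ χ w) z ξ = π * fderiv ℂ χ z * L z ξ := by
  have : CompleteSpace V := FiniteDimensional.complete ℂ V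
  obtain ⟨T', hT0, hT'⟩ := frame (h.mono fun _ h => h.1) (T₀ := π * U)
    (by rw [mul_assoc, hUP, ← mul_assoc, hπ])
  set T : V → V →L[ℂ] V := fun z => π * T' z with hTd
  have hTx : T x = π * U := by simp only [hTd]; rw [hT0, ← mul_assoc, hπ]
  have hπT : ∀ z, π * T z = T z := fun z => by simp only [hTd]; rw [← mul_assoc, hπ]
  have hT : ∀ᶠ z in 𝓝 x, DifferentiableAt ℂ T z ∧ T z * P z = T z ∧
      ∀ ξ, fderiv ℂ T z ξ = T z * L z ξ := by
    filter_upwards [hT'] with z hz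
    have h1 := hz.1.hasFDerivAt.const_mul π
    refine ⟨h1.differentiableAt, by simp only [hTd]; rw [mul_assoc, hz.2.1], fun ξ => ?_⟩
    rw [h1.fderiv]
    simp only [hTd, smul_apply, hz.2.2, smul_eq_mul, mul_assoc]
  clear_value T
  -- the primitive
  obtain ⟨t, ht⟩ : ∃ t : V → V, ∀ᶠ z in 𝓝 x, HasFDerivAt t (T z) z := by
    obtain ⟨r, hr, hb⟩ := Metric.mem_nhds_iff.1 (hT.and h)
    obtain ⟨t, ht⟩ := (convex_ball x r).exists_forall_hasFDerivAt_of_fderiv_symmetric (ω := T)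
      isOpen_ball (fun z hz => ((hb hz).1.1.restrictScalars ℝ).differentiableWithinAt) (by
        intro z hz a b
        rw [((hb hz).1.1.hasFDerivAt.restrictScalars ℝ).fderiv]
        simp only [ContinuousLinearMap.coe_restrictScalars', (hb hz).1.2.2, mul_apply_eq_comp]
        rw [(hb hz).2.2.2.1])
    exact ⟨t, by filter_upwards [ball_mem_nhds x hr] with z hz using ht z hz⟩
  -- the dual frame
  set W : V → V →L[ℂ] V := fun z => T z + (1 - π) * U * (1 - P z) with hW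
  have hπ' : π * (1 - π) = 0 := by rw [mul_sub, mul_one, hπ, sub_self]
  have hπ'' : (1 - π) * π = 0 := by rw [sub_mul, one_mul, hπ, sub_self]
  have hWx : W x = U := by
    simp only [hW]
    rw [hTx, mul_assoc, mul_sub U, hUP, mul_sub (1 - π), ← mul_assoc _ π, hπ'']
    noncomm_ring
  have hWd : ∀ᶠ z in 𝓝 x, DifferentiableAt ℂ W z := by
    filter_upwards [hT, h] with z h1 h2 using h1.1.add ((h2.1.dP.const_sub 1).const_mul _)
  have hWu : ∀ᶠ z in 𝓝 x, IsUnit (W z) :=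
    hWd.self_of_nhds.continuousAt.eventually (Units.isOpen.mem_nhds (hWx ▸ hU))
  set e : V → V →L[ℂ] V := fun z => Ring.inverse (W z) * π with he
  have heπ : ∀ z, e z * π = e z := fun z => by simp only [he]; rw [mul_assoc, hπ]
  have hex : e x = Ring.inverse U * π := by simp only [he]; rw [hWx]
  have he1 : ∀ᶠ z in 𝓝 x, DifferentiableAt ℂ e z ∧ T z * e z = π ∧ e z * T z = P z ∧
      P z * e z = e z := by
    filter_upwards [hT, h, hWd, hWu] with z h1 h2 h3 h4
    have a1 : π * W z = T z := by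
      simp only [hW]; rw [mul_add, hπT, ← mul_assoc, ← mul_assoc, hπ', zero_mul, zero_mul, add_zero]
    have a2 : W z * P z = T z := by
      simp only [hW]
      rw [add_mul, h1.2.1, mul_assoc, sub_mul 1 (P z), one_mul, h2.2.1, sub_self, mul_zero, add_zero]
    have a3 : T z * e z = π := by
      simp only [he]; rw [← a1, mul_assoc, Ring.mul_inverse_cancel_left _ _ h4, hπ]
    have a4 : e z * T z = P z := by
      simp only [he]; rw [mul_assoc, hπT, ← a2, Ring.inverse_mul_cancel_left _ _ h4]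
    exact ⟨(h3.inverse h4).mul_const π, a3, a4, by rw [← a4, mul_assoc, a3, heπ]⟩
  clear_value e
  have he2 : ∀ᶠ z in 𝓝 x, ∀ ξ η, fderiv ℂ e z (e z ξ) η = fderiv ℂ e z (e z η) ξ := by
    filter_upwards [hT, h, he1, he1.eventually_nhds] with z h1 h2 h3 h4
    have a1 : ∀ v, T z * fderiv ℂ e z v + T z * L z v * e z = 0 := by
      intro v
      have b1 := (h1.1.hasFDerivAt.mul' h3.1.hasFDerivAt).unique
        ((hasFDerivAt_const π z).congr_of_eventuallyEq (h4.mono fun w hw => hw.2.1))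
      simpa [h1.2.2] using DFunLike.congr_fun b1 v
    have a2 : ∀ v, P z * fderiv ℂ e z v + fderiv ℂ P z v * e z = fderiv ℂ e z v := by
      intro v
      have b1 := (h2.1.dP.hasFDerivAt.mul' h3.1.hasFDerivAt).unique
        (h3.1.hasFDerivAt.congr_of_eventuallyEq (h4.mono fun w hw => hw.2.2.2))
      simpa using DFunLike.congr_fun b1 v
    have a3 : ∀ v, fderiv ℂ e z v = fderiv ℂ P z v * e z - P z * L z v * e z := by
      intro v
      have b1 := congrArg (fun y => e z * y) (a1 v)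
      simp only [mul_add, ← mul_assoc, h3.2.2.1, mul_zero] at b1
      rw [← a2 v, eq_neg_of_add_eq_zero_left b1]
      abel
    have a4 : ∀ v, P z (e z v) = e z v := fun v => DFunLike.congr_fun h3.2.2.2 v
    intro ξ η
    have a5 := h2.2.2.2 (e z ξ) (e z η)
    rw [a4, a4] at a5
    simp only [a3, sub_apply, mul_apply_eq_comp, a5, h2.2.2.1 (e z ξ)]
  -- the flow
  have hs : Tendsto (Prod.snd : V × V → V) (𝓝 (0, x)) (𝓝 x) := continuous_snd.tendsto _
  obtain ⟨Φ, hΦ⟩ := frob (fun q : V × V => e q.2) 0 x (by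
    filter_upwards [hs.eventually he1, hs.eventually he2] with q h1 h2
    have h3 := HasFDerivAt.comp (f := Prod.snd) q h1.1.hasFDerivAt hasFDerivAt_snd
    refine ⟨h3.differentiableAt, fun ξ η => ?_⟩
    rw [show (fun q : V × V => e q.2) = e ∘ Prod.snd from rfl, h3.fderiv]
    exact h2 ξ η)
  set B : V →L[ℂ] V := Ring.inverse U * (1 - π) with hB
  set c : V → V × V := fun w => (π w, x + B w) with hc
  have hcd : ∀ w, HasFDerivAt c (π.prod B) w := fun w =>
    π.hasFDerivAt.prodMk (B.hasFDerivAt.const_add x)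
  have hc0 : c 0 = (0, x) := by simp [hc]
  have hct : Tendsto c (𝓝 0) (𝓝 (0, x)) := hc0 ▸ (hcd 0).continuousAt.tendsto
  have hΦ0 := hΦ.self_of_nhds
  have hψ0 : (Φ ∘ c) 0 = x := by rw [Function.comp, hc0]; exact hΦ0.2.1
  have hψ : ∀ᶠ w in 𝓝 (0 : V), DifferentiableAt ℂ (Φ ∘ c) w ∧
      fderiv ℂ (Φ ∘ c) w * π = e ((Φ ∘ c) w) := by
    filter_upwards [hct.eventually hΦ] with w hw
    have h1 := hw.1.hasFDerivAt.comp w (hcd w)
    refine ⟨h1.differentiableAt, ?_⟩
    rw [h1.fderiv]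
    ext u
    have h2 : B (π u) = 0 := by
      rw [← mul_apply_eq_comp, hB, mul_assoc, hπ'', mul_zero, zero_apply]
    have h3 : π (π u) = π u := DFunLike.congr_fun hπ u
    have h4 : e (Φ (c w)) (π u) = e (Φ (c w)) u := DFunLike.congr_fun (heπ _) u
    simp [h2, h3, hw.2.2, h4]
  have hψ' : fderiv ℂ (Φ ∘ c) 0 = Ring.inverse U := by
    have h0 : HasFDerivAt Φ (fderiv ℂ Φ (0, x)) (c 0) := hc0 ▸ hΦ0.1.hasFDerivAt
    have h1 : Tendsto (fun y : V => ((0 : V), y)) (𝓝 x) (𝓝 (0, x)) :=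
      Continuous.tendsto (by fun_prop) x
    have h2 := (HasFDerivAt.comp (f := fun y : V => ((0 : V), y)) x hΦ0.1.hasFDerivAt
      (hasFDerivAt_prodMk_right (0 : V) x)).unique
      ((hasFDerivAt_id x).congr_of_eventuallyEq ((h1.eventually hΦ).mono fun y hy => hy.2.1))
    rw [(h0.comp 0 (hcd 0)).fderiv]
    ext u
    have h3 : fderiv ℂ Φ (0, x) (0, B u) = B u := DFunLike.congr_fun h2 (B u)
    have h4 := hΦ0.2.2 (π u)
    rw [hΦ0.2.1, ← mul_apply_eq_comp, heπ, hex] at h4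
    have h5 : ((π u, B u) : V × V) = (π u, 0) + (0, B u) := by simp
    rw [ContinuousLinearMap.comp_apply, ContinuousLinearMap.prod_apply, h5, map_add, h3, h4,
      ← add_apply, hB, ← mul_add, add_sub_cancel, mul_one]
  obtain ⟨φ, hφ, hφ0, hφs, hφd, hφi, -⟩ := loc_inv (hψ.mono fun _ h => h.1)
    (hψ' ▸ hU.ringInverse) hψ
  have hxt : x ∈ φ.target := by rw [← hψ0, ← hφ]; exact φ.map_source hφ0
  have hg : ∀ z ∈ φ.target, fderiv ℂ φ.symm z * fderiv ℂ (Φ ∘ c) (φ.symm z) = 1 := by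
    intro z hz
    have h1 := φ.map_target hz
    have h2 : HasFDerivAt φ.symm (fderiv ℂ φ.symm z) (φ (φ.symm z)) := by
      rw [φ.right_inv hz]
      exact (hφi.differentiableAt (φ.open_target.mem_nhds hz)).hasFDerivAt
    have h3 := (hφd.differentiableAt (φ.open_source.mem_nhds h1)).hasFDerivAt
    have h4 := (h2.comp _ h3).unique
      ((hasFDerivAt_id _).congr_of_eventuallyEq (φ.eventually_left_inverse h1))
    rw [← hφ]
    exact h4
  have hK : ∀ᶠ z in 𝓝 x, HasFDerivAt (fun w => t w + (1 - π) (φ.symm w))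
      (T z + (1 - π) * fderiv ℂ φ.symm z) z := by
    filter_upwards [ht, φ.open_target.mem_nhds hxt] with z h1 h2
    exact h1.add ((1 - π).hasFDerivAt.comp z
      (hφi.differentiableAt (φ.open_target.mem_nhds h2)).hasFDerivAt)
  have hK1 : ∀ᶠ z in 𝓝 x, π * fderiv ℂ (fun w => t w + (1 - π) (φ.symm w)) z = T z := by
    filter_upwards [hK] with z hz
    rw [hz.fderiv, mul_add, hπT, ← mul_assoc, hπ', zero_mul, add_zero]
  refine ⟨fun w => t w + (1 - π) (φ.symm w), ?_, ?_⟩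
  · have h1 := hg x hxt
    have h2 : φ.symm x = 0 := by rw [← hψ0, ← hφ]; exact φ.left_inv hφ0
    rw [h2, hψ', eq_comm, Ring.eq_mul_inverse_iff_mul_eq _ _ _ hU, one_mul] at h1
    rw [hK.self_of_nhds.fderiv, ← h1, hTx]
    noncomm_ring
  · filter_upwards [hK, hK1, hK1.eventually_nhds, hT, he1, φ.open_target.mem_nhds hxt]
      with z h1 h2 h3 h4 h5 h6
    refine ⟨h1.differentiableAt, ?_, fun ξ => ?_⟩
    · have a1 := (hφs (φ.map_target h6)).2
      rw [← hφ, φ.right_inv h6, hφ] at a1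
      have a2 : fderiv ℂ φ.symm z * e z = π := by rw [← a1, ← mul_assoc, hg z h6, one_mul]
      rw [h2, h1.fderiv, ← h5.2.2.1, ← mul_assoc, add_mul, h5.2.1, mul_assoc (1 - π), a2, hπ'',
        add_zero, hπT]
    · rw [EventuallyEq.fderiv_eq h3, h2, h4.2.2]

end Pool.Agent.HS85
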