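import Pool.Agent.Lib.SV.Hol85

/-! The holomorphic theorem of Frobenius in the form of Dieudonné. -/

open scoped Topology NNReal
open Set Filter Metric MeasureTheory

noncomputable section

namespace Pool.Agent.HS85

open Pool.Agent.Lib.SV.H85

variable {E F G : Type*} [NormedAddCommGroup E] [NormedSpace ℂ E] [NormedAddCommGroup F]
  [NormedSpace ℂ F] [NormedAddCommGroup G] [NormedSpace ℂ G]

/-- Scaling of the first coordinate. -/
def sc (s : ℝ) : E × F →L[ℂ] E × F :=
  ((s : ℂ) • ContinuousLinearMap.fst ℂ E F).prod (ContinuousLinearMap.snd ℂ E F)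

@[simp] theorem sc_apply (s : ℝ) (p : E × F) : sc s p = ((s : ℂ) • p.1, p.2) := rfl

theorem norm_sc_le {s : ℝ} (hs : s ∈ Icc (0 : ℝ) 1) : ‖(sc s : E × F →L[ℂ] E × F)‖ ≤ 1 := by
  refine ContinuousLinearMap.opNorm_le_bound _ zero_le_one fun p => ?_
  rw [sc_apply, one_mul, Prod.norm_def, Prod.norm_def]
  refine max_le_max ?_ le_rfl
  rw [norm_smul, Complex.norm_real, Real.norm_of_nonneg hs.1]
  exact mul_le_of_le_one_left (norm_nonneg _) hs.2

theorem dist_sc_le {s : ℝ} (hs : s ∈ Icc (0 : ℝ) 1) (p : E × F) (y : F) :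
    dist (sc s p) ((0 : E), y) ≤ dist p (0, y) := by
  rw [sc_apply, Prod.dist_eq, Prod.dist_eq]
  refine max_le_max ?_ le_rfl
  simp only [dist_zero_right]
  rw [norm_smul, Complex.norm_real, Real.norm_of_nonneg hs.1]
  exact mul_le_of_le_one_left (norm_nonneg _) hs.2

theorem sc_mem {s r : ℝ} (hs : s ∈ Icc (0 : ℝ) 1) {p : E × F} {y : F}
    (hp : p ∈ ball ((0 : E), y) r) : sc s p ∈ ball ((0 : E), y) r :=
  (dist_sc_le hs p y).trans_lt hp

theorem continuous_sc (p : E × F) : Continuous fun s : ℝ => sc s p := by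
  simp only [sc_apply]; fun_prop

theorem continuous_sc' : Continuous fun s : ℝ => (sc s : E × F →L[ℂ] E × F) := by
  have : (fun s : ℝ => (sc s : E × F →L[ℂ] E × F)) = fun s : ℝ =>
      (s : ℂ) • (ContinuousLinearMap.fst ℂ E F).prod 0 +
        (0 : E × F →L[ℂ] E).prod (ContinuousLinearMap.snd ℂ E F) := by
    funext s; ext <;> simp
  rw [this]; fun_prop

theorem hasDerivAt_sc (p : E × F) (s : ℝ) :
    HasDerivAt (fun s : ℝ => sc s p) (p.1, 0) s := by
  simp only [sc_apply]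
  refine HasDerivAt.prodMk ?_ (hasDerivAt_const _ _)
  simpa using (Complex.ofRealCLM.hasDerivAt (x := s)).smul_const p.1

/-- Mean along the ray. -/
def avg (Φ : E × F → G) (p : E × F) : G := ∫ s in (0 : ℝ)..1, Φ (sc s p)

variable [FiniteDimensional ℂ E] [FiniteDimensional ℂ F] [CompleteSpace G]

theorem differentiableOn_avg {Φ : E × F → G} {y : F} {r : ℝ}
    (hΦ : DifferentiableOn ℂ Φ (ball (0, y) r)) : DifferentiableOn ℂ (avg Φ) (ball (0, y) r) := by
  intro x hx
  have : ProperSpace (E × F) := FiniteDimensional.proper ℂ _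
  obtain ⟨r', h1, h2⟩ := exists_between (mem_ball.1 hx)
  have hsub : closedBall ((0 : E), y) r' ⊆ ball (0, y) r := closedBall_subset_ball h2
  have hc := continuousOn_fderiv isOpen_ball hΦ
  obtain ⟨C, hC⟩ := (isCompact_closedBall ((0 : E), y) r').exists_bound_of_continuousOn
    (hc.mono hsub)
  have hI : ∀ {s : ℝ}, s ∈ uIoc (0 : ℝ) 1 → s ∈ Icc (0 : ℝ) 1 := fun hs => by
    rw [uIoc_of_le zero_le_one] at hs; exact Ioc_subset_Icc_self hs
  have hF : ∀ q ∈ ball ((0 : E), y) r, ContinuousOn (fun s : ℝ => Φ (sc s q)) (Icc 0 1) :=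
    fun q hq => hΦ.continuousOn.comp (continuous_sc q).continuousOn fun s hs => sc_mem hs hq
  have hb : ball ((0 : E), y) r' ∈ 𝓝 x := isOpen_ball.mem_nhds h1
  have key := intervalIntegral.hasFDerivAt_integral_of_dominated_of_fderiv_le (𝕜 := ℂ)
    (μ := volume) (a := 0) (b := 1) (bound := fun _ => C)
    (F := fun q s => Φ (sc s q)) (F' := fun q s => (fderiv ℂ Φ (sc s q)).comp (sc s))
    hb ?_ ?_ ?_ ?_ ?_ ?_
  · exact key.differentiableAt.differentiableWithinAt
  · filter_upwards [isOpen_ball.mem_nhds hx] with q hq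
    exact ((hF q hq).mono fun s hs => hI hs).aestronglyMeasurable measurableSet_uIoc
  · exact ((hF x hx).mono (by rw [uIcc_of_le zero_le_one])).intervalIntegrable
  · refine ContinuousOn.aestronglyMeasurable ?_ measurableSet_uIoc
    exact (hc.comp (continuous_sc x).continuousOn fun s hs => sc_mem (hI hs) hx).clm_comp
      continuous_sc'.continuousOn
  · refine ae_of_all _ fun s hs q hq => ?_
    have h3 := hC _ (ball_subset_closedBall (sc_mem (hI hs) hq))
    refine (ContinuousLinearMap.opNorm_comp_le _ _).trans ?_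
    exact (mul_le_of_le_one_right (norm_nonneg _) (norm_sc_le (hI hs))).trans h3
  · exact intervalIntegrable_const
  · refine ae_of_all _ fun s hs q hq => ?_
    have h3 := (hΦ.differentiableAt (isOpen_ball.mem_nhds
      (hsub (ball_subset_closedBall (sc_mem (hI hs) hq))))).hasFDerivAt
    have h4 := (sc s : E × F →L[ℂ] E × F).hasFDerivAt (x := q)
    exact h3.comp q h4

omit [FiniteDimensional ℂ E] [FiniteDimensional ℂ F] [CompleteSpace G] in
theorem norm_avg_le {Φ : E × F → G} {p : E × F} {M : ℝ}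
    (h : ∀ s ∈ Icc (0 : ℝ) 1, ‖Φ (sc s p)‖ ≤ M) : ‖avg Φ p‖ ≤ M := by
  have := intervalIntegral.norm_integral_le_of_norm_le_const (a := 0) (b := 1) (C := M)
    (f := fun s => Φ (sc s p)) fun s hs => h s (by
      rw [uIoc_of_le zero_le_one] at hs; exact Ioc_subset_Icc_self hs)
  simpa [avg] using this

omit [FiniteDimensional ℂ E] [FiniteDimensional ℂ F] [CompleteSpace G] in
theorem avg_sub {Φ Ψ : E × F → G} {p : E × F} {y : F} {r : ℝ}
    (hΦ : ContinuousOn Φ (ball (0, y) r)) (hΨ : ContinuousOn Ψ (ball (0, y) r))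
    (hp : p ∈ ball ((0 : E), y) r) : avg Φ p - avg Ψ p = avg (fun q => Φ q - Ψ q) p := by
  have hF : ∀ {Θ : E × F → G}, ContinuousOn Θ (ball (0, y) r) →
      IntervalIntegrable (fun s : ℝ => Θ (sc s p)) volume 0 1 := fun h =>
    ((h.comp (continuous_sc p).continuousOn fun s hs => sc_mem hs hp).mono
      (by rw [uIcc_of_le zero_le_one])).intervalIntegrable
  exact (intervalIntegral.integral_sub (hF hΦ) (hF hΨ)).symm

/-- One step of the iteration of Picard. -/
def pic (A : E × F → E →L[ℂ] F) (v : E × F → F) (p : E × F) : F :=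
  p.2 + avg (fun q => A (q.1, v q)) p p.1

/-- A holomorphic fixed point of the iteration. -/
theorem exists_fix (A : E × F → E →L[ℂ] F) (y : F) {U : Set (E × F)} (hU : U ∈ 𝓝 ((0 : E), y))
    (hA : DifferentiableOn ℂ A U) :
    ∃ r > 0, ∃ v : E × F → F, DifferentiableOn ℂ v (ball (0, y) r) ∧
      ∀ p ∈ ball ((0 : E), y) r, (p.1, v p) ∈ interior U ∧ v p = pic A v p := by
  have : CompleteSpace F := FiniteDimensional.complete ℂ F
  have hA1 : ContDiffAt ℂ 1 A (0, y) := contDiffAt_nat (k := 1) (by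
    filter_upwards [interior_mem_nhds.2 hU] with q hq
    exact hA.differentiableAt (mem_interior_iff_mem_nhds.1 hq))
  obtain ⟨K, t, ht, hK⟩ := hA1.exists_lipschitzOnWith
  obtain ⟨R, hR, hRs⟩ := Metric.mem_nhds_iff.1 (inter_mem ht (interior_mem_nhds.2 hU))
  set M : ℝ := ‖A (0, y)‖ + K * R with hM
  have hM0 : 0 ≤ M := by positivity
  have hAM : ∀ q ∈ ball ((0 : E), y) R, ‖A q‖ ≤ M := by
    intro q hq
    have h1 := hK.dist_le_mul q (hRs hq).1 _ (hRs (mem_ball_self hR)).1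
    have h2 : dist q (0, y) ≤ R := (mem_ball.1 hq).le
    rw [dist_eq_norm] at h1
    have h3 := norm_sub_norm_le (A q) (A (0, y))
    have h4 : (K : ℝ) * dist q (0, y) ≤ K * R := by gcongr
    linarith
  have hAd : DifferentiableOn ℂ A (ball (0, y) R) := hA.mono fun q hq => interior_subset (hRs hq).2
  obtain ⟨r, hr, hr1, hr2, hr3⟩ : ∃ r > 0, r ≤ R / 2 ∧ M * r ≤ R / 2 ∧ K * r ≤ 1 / 2 := by
    refine ⟨min (R / 2) (min (R / 2 / (M + 1)) (1 / 2 / (K + 1))), by positivity, min_le_left _ _,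
      ?_, ?_⟩
    · calc M * _ ≤ (M + 1) * (R / 2 / (M + 1)) :=
          mul_le_mul (by linarith) ((min_le_right _ _).trans (min_le_left _ _)) (by positivity)
            (by positivity)
        _ = R / 2 := by field_simp
    · calc (K : ℝ) * _ ≤ (K + 1) * (1 / 2 / (K + 1)) :=
          mul_le_mul (by linarith) ((min_le_right _ _).trans (min_le_right _ _)) (by positivity)
            (by positivity)
        _ = 1 / 2 := by field_simp
  set D := ball ((0 : E), y) r with hD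
  have hn1 : ∀ p ∈ D, ‖p.1‖ ≤ r := fun p hp => by
    have := mem_ball.1 hp
    rw [Prod.dist_eq, max_lt_iff, dist_zero_right] at this
    exact this.1.le
  have hin : ∀ v : E × F → F, (∀ p ∈ D, ‖v p - p.2‖ ≤ R / 2) →
      ∀ p ∈ D, (p.1, v p) ∈ ball ((0 : E), y) R := by
    intro v hv p hp
    have h1 := mem_ball.1 hp
    rw [Prod.dist_eq, max_lt_iff] at h1
    rw [mem_ball, Prod.dist_eq, max_lt_iff]
    refine ⟨by linarith [h1.1], ?_⟩
    have h2 := dist_triangle (v p) p.2 y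
    have h3 := hv p hp
    rw [← dist_eq_norm] at h3
    linarith [h1.2]
  have hcomp : ∀ v : E × F → F, DifferentiableOn ℂ v D → (∀ p ∈ D, ‖v p - p.2‖ ≤ R / 2) →
      DifferentiableOn ℂ (fun q : E × F => A (q.1, v q)) D := fun v hv hb =>
    hAd.comp (differentiableOn_fst.prodMk hv) fun p hp => hin v hb p hp
  have hstep : ∀ v : E × F → F, DifferentiableOn ℂ v D → (∀ p ∈ D, ‖v p - p.2‖ ≤ R / 2) →
      DifferentiableOn ℂ (pic A v) D ∧ ∀ p ∈ D, ‖pic A v p - p.2‖ ≤ R / 2 := by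
    intro v hv hb
    refine ⟨differentiableOn_snd.add
      ((differentiableOn_avg (hcomp v hv hb)).clm_apply differentiableOn_fst), fun p hp => ?_⟩
    rw [pic, add_sub_cancel_left]
    refine ((ContinuousLinearMap.le_opNorm _ _).trans ?_).trans hr2
    exact mul_le_mul (norm_avg_le fun s hs => hAM _ (hin v hb _ (sc_mem hs hp))) (hn1 p hp)
      (norm_nonneg _) hM0
  have hcon : ∀ v w : E × F → F, DifferentiableOn ℂ v D → (∀ p ∈ D, ‖v p - p.2‖ ≤ R / 2) →
      DifferentiableOn ℂ w D → (∀ p ∈ D, ‖w p - p.2‖ ≤ R / 2) → ∀ d : ℝ,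
      (∀ p ∈ D, dist (v p) (w p) ≤ d) → ∀ p ∈ D, dist (pic A v p) (pic A w p) ≤ d / 2 := by
    intro v w hv hb hw hc d hd p hp
    have hd0 : 0 ≤ d := dist_nonneg.trans (hd p hp)
    rw [pic, pic, dist_add_left, dist_eq_norm, ← sub_apply,
      avg_sub (hcomp v hv hb).continuousOn (hcomp w hw hc).continuousOn hp]
    refine (ContinuousLinearMap.le_opNorm _ _).trans ?_
    have h1 : ‖avg (fun q : E × F => A (q.1, v q) - A (q.1, w q)) p‖ ≤ K * d := by
      refine norm_avg_le fun s hs => ?_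
      have hq := sc_mem hs hp
      have h2 := hK.dist_le_mul _ (hRs (hin v hb _ hq)).1 _ (hRs (hin w hc _ hq)).1
      rw [dist_eq_norm, dist_prod_same_left] at h2
      exact h2.trans (mul_le_mul_of_nonneg_left (hd _ hq) K.2)
    calc _ ≤ (K * d) * r := mul_le_mul h1 (hn1 p hp) (norm_nonneg _) (by positivity)
      _ = d * (K * r) := by ring
      _ ≤ d * (1 / 2) := by gcongr
      _ = d / 2 := by ring
  set u : ℕ → E × F → F := fun m => (pic A)^[m] fun p => p.2 with hu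
  have hus : ∀ m, u (m + 1) = pic A (u m) := fun m => Function.iterate_succ_apply' _ _ _
  have hug : ∀ m, DifferentiableOn ℂ (u m) D ∧ ∀ p ∈ D, ‖u m p - p.2‖ ≤ R / 2 := by
    intro m
    induction m with
    | zero => exact ⟨differentiableOn_snd, fun p _ => by simp [hu]; positivity⟩
    | succ m ih => rw [hus]; exact hstep _ ih.1 ih.2
  have hud : ∀ m, ∀ p ∈ D, dist (u m p) (u (m + 1) p) ≤ R / 2 / 2 ^ m := by
    intro m
    induction m with
    | zero =>
      intro p hp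
      rw [dist_comm, dist_eq_norm]
      simpa [hu] using (hug 1).2 p hp
    | succ m ih =>
      intro p hp
      have := hcon _ _ (hug m).1 (hug m).2 (hug (m + 1)).1 (hug (m + 1)).2 _ ih p hp
      rw [← hus, ← hus] at this
      exact this.trans (le_of_eq (by ring))
  have hlim : ∀ p, ∃ a, p ∈ D → Tendsto (fun m => u m p) atTop (𝓝 a) := by
    intro p
    by_cases hp : p ∈ D
    · obtain ⟨a, ha⟩ := cauchySeq_tendsto_of_complete
        (cauchySeq_of_le_geometric_two fun m => hud m p hp)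
      exact ⟨a, fun _ => ha⟩
    · exact ⟨0, fun h => absurd h hp⟩
  choose v hv using hlim
  have hvb : ∀ p ∈ D, ‖v p - p.2‖ ≤ R / 2 := fun p hp =>
    le_of_tendsto' ((hv p hp).sub_const p.2).norm fun m => (hug m).2 p hp
  have hvd : DifferentiableOn ℂ v D := by
    refine (differentiableOn_of_tendsto isOpen_ball (Eventually.of_forall fun m => (hug m).1)
      (fun x hx => ⟨‖y‖ + R, D, isOpen_ball.mem_nhds hx, Eventually.of_forall fun m p hp => ?_⟩)
      hv).1
    have h1 := mem_ball.1 (hin _ (hug m).2 p hp)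
    rw [Prod.dist_eq, max_lt_iff, dist_eq_norm, dist_eq_norm] at h1
    have h2 := norm_sub_norm_le (u m p) y
    linarith [h1.2]
  refine ⟨r, hr, v, hvd, fun p hp => ⟨(hRs (hin v hvb p hp)).2, ?_⟩⟩
  have h1 : ∀ m, dist (u (m + 1) p) (pic A v p) ≤ R / 2 ^ m / 2 := by
    intro m
    rw [hus]
    exact hcon _ _ (hug m).1 (hug m).2 hvd hvb _ (fun q hq =>
      dist_le_of_le_geometric_two_of_tendsto (fun m => hud m q hq) (hv q hq) m) p hp
  refine tendsto_nhds_unique ((tendsto_add_atTop_iff_nat 1).2 (hv p hp)) ?_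
  refine tendsto_iff_dist_tendsto_zero.2 (squeeze_zero (fun _ => dist_nonneg) h1 ?_)
  have h2 : Tendsto (fun m : ℕ => R / 2 ^ m) atTop (𝓝 0) :=
    tendsto_const_nhds.div_atTop (tendsto_pow_atTop_atTop_of_one_lt one_lt_two)
  simpa using h2.div_const 2

/-- Solution along the rays, holomorphic in all variables. -/
theorem exists_ray (A : E × F → E →L[ℂ] F) (y : F) {U : Set (E × F)} (hU : U ∈ 𝓝 ((0 : E), y))
    (hA : DifferentiableOn ℂ A U) :
    ∃ r > 0, ∃ v : E × F → F, DifferentiableOn ℂ v (ball (0, y) r) ∧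
      ∀ p ∈ ball ((0 : E), y) r, (p.1, v p) ∈ interior U ∧ v (0, p.2) = p.2 ∧
        ∀ s ∈ Icc (0 : ℝ) 1, fderiv ℂ v (sc s p) (p.1, 0) = A ((s : ℂ) • p.1, v (sc s p)) p.1 := by
  have : CompleteSpace F := FiniteDimensional.complete ℂ F
  obtain ⟨r, hr, v, hv, hf⟩ := exists_fix A y hU hA
  refine ⟨r, hr, v, hv, fun p hp => ⟨(hf p hp).1, ?_, fun s hs => ?_⟩⟩
  · have h0 : ((0 : E), p.2) ∈ ball ((0 : E), y) r := by
      simpa using sc_mem (s := 0) ⟨le_rfl, zero_le_one⟩ hp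
    rw [(hf _ h0).2, pic]
    simp
  set Φ : E × F → E →L[ℂ] F := fun q => A (q.1, v q) with hΦ
  have hΦc : ContinuousOn Φ (ball (0, y) r) :=
    hA.continuousOn.comp (continuousOn_fst.prodMk hv.continuousOn)
      fun q hq => interior_subset (hf q hq).1
  have hc : ContinuousOn (fun u : ℝ => Φ (sc u p)) (Icc 0 1) :=
    hΦc.comp (continuous_sc p).continuousOn fun u hu => sc_mem hu hp
  have h1 : ∀ u ∈ Icc (0 : ℝ) 1, v (sc u p) = p.2 + (∫ a in (0 : ℝ)..u, Φ (sc a p)) p.1 := by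
    intro u hu
    rw [(hf _ (sc_mem hu hp)).2, pic]
    have h2 := intervalIntegral.smul_integral_comp_mul_right (a := 0) (b := 1)
      (fun a : ℝ => Φ (sc a p)) u
    rw [zero_mul, one_mul] at h2
    rw [← h2, avg]
    have h3 : ∀ a : ℝ, sc a (sc u p) = sc (a * u) p := fun a => by
      simp only [sc_apply, smul_smul, Complex.ofReal_mul]
    simp only [h3]
    simp [hΦ]
  have h2 : HasDerivWithinAt (fun u : ℝ => ∫ a in (0 : ℝ)..u, Φ (sc a p)) (Φ (sc s p))
      (Icc 0 1) s := by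
    have : Fact (s ∈ Icc (0 : ℝ) 1) := ⟨hs⟩
    refine intervalIntegral.integral_hasDerivWithinAt_right (t := Icc 0 1)
      ((hc.mono ?_).intervalIntegrable) (hc.stronglyMeasurableAtFilter_nhdsWithin measurableSet_Icc _)
      (hc s hs)
    rw [uIcc_of_le hs.1]
    exact Icc_subset_Icc_right hs.2
  have h3 : HasDerivWithinAt (fun u : ℝ => v (sc u p)) (Φ (sc s p) p.1) (Icc 0 1) s := by
    have h4 := ((ContinuousLinearMap.apply ℂ F p.1).restrictScalars ℝ).hasFDerivAt
      |>.comp_hasDerivWithinAt s h2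
    exact (h4.const_add p.2).congr (fun u hu => h1 u hu) (h1 s hs)
  have h5 := (hv.differentiableAt (isOpen_ball.mem_nhds (sc_mem hs hp))).hasFDerivAt.restrictScalars ℝ
  have h4 := h5.comp_hasDerivAt s (hasDerivAt_sc p s)
  exact (uniqueDiffOn_Icc zero_lt_one s hs).eq_deriv _ h4.hasDerivWithinAt h3

omit [FiniteDimensional ℂ E] [FiniteDimensional ℂ F] [CompleteSpace G] in
/-- Uniqueness along a ray. -/
theorem ray_zero {g g' : ℝ → G} {B : ℝ → G →L[ℂ] G} (hB : ContinuousOn B (Icc 0 1))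
    (hg : ∀ s ∈ Icc (0 : ℝ) 1, HasDerivAt g (g' s) s) (he : ∀ s ∈ Icc (0 : ℝ) 1, g' s = B s (g s))
    (h0 : g 0 = 0) : g 1 = 0 := by
  obtain ⟨C, hC⟩ := isCompact_Icc.exists_bound_of_continuousOn hB
  refine eq_zero_of_abs_deriv_le_mul_abs_self_of_eq_zero_right (K := C) (a := 0) (b := 1) (f' := g')
    (fun s hs => (hg s hs).continuousAt.continuousWithinAt)
    (fun s hs => (hg s (Ico_subset_Icc_self hs)).hasDerivWithinAt) h0 (fun s hs => ?_) 1
    ⟨zero_le_one, le_rfl⟩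
  rw [he s (Ico_subset_Icc_self hs)]
  exact (ContinuousLinearMap.le_opNorm _ _).trans
    (mul_le_mul_of_nonneg_right (hC s (Ico_subset_Icc_self hs)) (norm_nonneg _))

/-- A solution along rays solves the whole system where the system is integrable. -/
theorem full_of_ray {A : E × F → E →L[ℂ] F} {y : F} {U : Set (E × F)} (hA : DifferentiableOn ℂ A U)
    {r : ℝ} {v : E × F → F} (hv : DifferentiableOn ℂ v (ball (0, y) r))
    (hf : ∀ p ∈ ball ((0 : E), y) r, (p.1, v p) ∈ interior U ∧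
      fderiv ℂ v p (p.1, 0) = A (p.1, v p) p.1)
    {p : E × F} (hp : p ∈ ball ((0 : E), y) r)
    (hi : ∀ s ∈ Icc (0 : ℝ) 1, ∀ q, q = ((s : ℂ) • p.1, v (sc s p)) → ∀ ξ η,
      fderiv ℂ A q (ξ, A q ξ) η = fderiv ℂ A q (η, A q η) ξ) (ξ : E) :
    fderiv ℂ v p (ξ, 0) = A (p.1, v p) ξ := by
  have : CompleteSpace F := FiniteDimensional.complete ℂ F
  have hAd : ∀ q ∈ ball ((0 : E), y) r, HasFDerivAt A (fderiv ℂ A (q.1, v q)) (q.1, v q) :=
    fun q hq => (hA.differentiableAt (mem_interior_iff_mem_nhds.1 (hf q hq).1)).hasFDerivAt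
  have hvd : ∀ q ∈ ball ((0 : E), y) r, HasFDerivAt v (fderiv ℂ v q) q :=
    fun q hq => (hv.differentiableAt (isOpen_ball.mem_nhds hq)).hasFDerivAt
  have hv2 : ∀ q ∈ ball ((0 : E), y) r, HasFDerivAt (fderiv ℂ v) (fderiv ℂ (fderiv ℂ v) q) q :=
    fun q hq => ((differentiableOn_fderiv isOpen_ball hv).differentiableAt
      (isOpen_ball.mem_nhds hq)).hasFDerivAt
  have hsy : ∀ q ∈ ball ((0 : E), y) r, ∀ a b,
      fderiv ℂ (fderiv ℂ v) q a b = fderiv ℂ (fderiv ℂ v) q b a := fun q hq a b =>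
    (((contDiffOn_nat isOpen_ball 2 hv).contDiffAt (isOpen_ball.mem_nhds hq)).isSymmSndFDerivAt
      (by simp)).eq a b
  have hΦ : ∀ q ∈ ball ((0 : E), y) r, HasFDerivAt (fun q : E × F => A (q.1, v q))
      ((fderiv ℂ A (q.1, v q)).comp ((ContinuousLinearMap.fst ℂ E F).prod (fderiv ℂ v q))) q :=
    fun q hq => (hAd q hq).comp q (hasFDerivAt_fst.prodMk (hvd q hq))
  -- derivative of the radial equation
  have hrad : ∀ q ∈ ball ((0 : E), y) r,
      fderiv ℂ (fderiv ℂ v) q (ξ, 0) (q.1, 0) + fderiv ℂ v q (ξ, 0) =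
        fderiv ℂ A (q.1, v q) (ξ, fderiv ℂ v q (ξ, 0)) q.1 + A (q.1, v q) ξ := by
    intro q hq
    have h1 := (hv2 q hq).clm_apply (hasFDerivAt_fst.prodMk (hasFDerivAt_const (0 : F) q))
    have h2 := (hΦ q hq).clm_apply (hasFDerivAt_fst (p := q))
    have h3 : (fun q : E × F => fderiv ℂ v q (q.1, 0)) =ᶠ[𝓝 q] fun q => A (q.1, v q) q.1 := by
      filter_upwards [isOpen_ball.mem_nhds hq] with w hw using (hf w hw).2
    have h4 := DFunLike.congr_fun ((h1.congr_of_eventuallyEq h3.symm).unique h2) (ξ, 0)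
    simpa [add_comm] using h4
  set δ : E × F → F := fun q => fderiv ℂ v q (ξ, 0) - A (q.1, v q) ξ with hδ
  have key := ray_zero (g := fun s : ℝ => (s : ℂ) • δ (sc s p))
    (g' := fun s : ℝ => (s : ℂ) • (fderiv ℂ (fderiv ℂ v) (sc s p) (p.1, 0) (ξ, 0) -
      fderiv ℂ A ((s : ℂ) • p.1, v (sc s p)) (p.1, fderiv ℂ v (sc s p) (p.1, 0)) ξ) + δ (sc s p))
    (B := fun s : ℝ => ((fderiv ℂ A ((s : ℂ) • p.1, v (sc s p))).comp
      (ContinuousLinearMap.inr ℂ E F)).flip p.1) ?_ ?_ ?_ (by simp)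
  · simpa [hδ, sub_eq_zero] using key
  · have h1 : ContinuousOn (fun s : ℝ => fderiv ℂ A ((s : ℂ) • p.1, v (sc s p))) (Icc 0 1) := by
      refine (continuousOn_fderiv isOpen_interior (hA.mono interior_subset)).comp
        (f := fun s : ℝ => ((s : ℂ) • p.1, v (sc s p))) ?_ fun s hs => (hf _ (sc_mem hs hp)).1
      exact ContinuousOn.prodMk (by fun_prop)
        (hv.continuousOn.comp (continuous_sc p).continuousOn fun s hs => sc_mem hs hp)
    exact ((ContinuousLinearMap.flipₗᵢ ℂ F E F).continuous.comp_continuousOn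
      (h1.clm_comp continuousOn_const)).clm_apply continuousOn_const
  · intro s hs
    have hq := sc_mem hs hp
    have h1 := ((hv2 _ hq).clm_apply (hasFDerivAt_const ((ξ, 0) : E × F) _)).sub
      ((hΦ _ hq).clm_apply (hasFDerivAt_const ξ _))
    have h2 := (h1.restrictScalars ℝ).comp_hasDerivAt s (hasDerivAt_sc p s)
    have h3 := (Complex.ofRealCLM.hasDerivAt (x := s)).smul h2
    refine h3.congr_deriv ?_
    simp [hδ]
  · intro s hs
    have hq := sc_mem hs hp
    have h1 := hrad _ hq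
    have h2 := (hf _ hq).2
    have h3 := hi s hs _ rfl ξ ((s : ℂ) • p.1)
    have h4 := hsy _ hq (p.1, 0) (ξ, 0)
    set q := sc s p with hq'
    have hq1 : q.1 = (s : ℂ) • p.1 := rfl
    rw [hq1] at h1 h2
    set a := ((s : ℂ) • p.1, v q) with ha
    have e1 : (((s : ℂ) • p.1, (0 : F)) : E × F) = (s : ℂ) • (p.1, (0 : F)) := by simp
    have e2 : (s : ℂ) • fderiv ℂ A a (p.1, fderiv ℂ v q (p.1, 0)) ξ =
        fderiv ℂ A a ((s : ℂ) • p.1, A a ((s : ℂ) • p.1)) ξ := by
      rw [← h2, e1, map_smul, ← Prod.smul_mk, map_smul]; rfl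
    have e3 : ((ξ, fderiv ℂ v q (ξ, 0)) : E × F) = (ξ, A a ξ) + (0, δ q) := by
      simp [hδ, hq1, ha]
    have e4 : δ q = fderiv ℂ v q (ξ, 0) - A a ξ := rfl
    rw [e1, map_smul, e3, map_add] at h1
    rw [smul_sub, e2, ← h3, h4]
    simp only [ContinuousLinearMap.flip_apply, ContinuousLinearMap.comp_apply,
      ContinuousLinearMap.inr_apply, add_apply, map_smul] at h1 ⊢
    have e5 : (((0 : E), (s : ℂ) • δ q) : E × F) = (s : ℂ) • ((0 : E), δ q) := by simp
    rw [e4] at h1 ⊢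
    linear_combination (norm := module) h1

/-- The theorem of Frobenius at the origin. -/
theorem frob_zero (A : E × F → E →L[ℂ] F) (y : F)
    (hA : ∀ᶠ q in 𝓝 ((0 : E), y), DifferentiableAt ℂ A q ∧ ∀ ξ η,
      fderiv ℂ A q (ξ, A q ξ) η = fderiv ℂ A q (η, A q η) ξ) :
    ∃ v : E × F → F, ∀ᶠ p in 𝓝 ((0 : E), y), DifferentiableAt ℂ v p ∧ v (0, p.2) = p.2 ∧
      ∀ ξ, fderiv ℂ v p (ξ, 0) = A (p.1, v p) ξ := by
  have hd : DifferentiableOn ℂ A _ := fun q hq =>
    DifferentiableAt.differentiableWithinAt (s := {q | DifferentiableAt ℂ A q ∧ ∀ ξ η,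
      fderiv ℂ A q (ξ, A q ξ) η = fderiv ℂ A q (η, A q η) ξ}) hq.1
  obtain ⟨r, hr, v, hv, hf⟩ := exists_ray A y hA hd
  refine ⟨v, ?_⟩
  filter_upwards [ball_mem_nhds _ hr] with p hp
  refine ⟨hv.differentiableAt (isOpen_ball.mem_nhds hp), (hf p hp).2.1, fun ξ => ?_⟩
  refine full_of_ray hd hv (fun q hq => ⟨(hf q hq).1, ?_⟩) hp ?_ ξ
  · simpa using (hf q hq).2.2 1 ⟨zero_le_one, le_rfl⟩
  · rintro s hs q rfl
    exact (interior_subset (hf _ (sc_mem hs hp)).1).2

/-- The holomorphic theorem of Frobenius. -/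
theorem frob (A : E × F → E →L[ℂ] F) (x : E) (y : F)
    (hA : ∀ᶠ q in 𝓝 (x, y), DifferentiableAt ℂ A q ∧ ∀ ξ η,
      fderiv ℂ A q (ξ, A q ξ) η = fderiv ℂ A q (η, A q η) ξ) :
    ∃ v : E × F → F, ∀ᶠ p in 𝓝 (x, y), DifferentiableAt ℂ v p ∧ v (x, p.2) = p.2 ∧
      ∀ ξ, fderiv ℂ v p (ξ, 0) = A (p.1, v p) ξ := by
  have h1 : Tendsto (fun q : E × F => q + (x, 0)) (𝓝 (0, y)) (𝓝 (x, y)) :=
    Continuous.tendsto' (by fun_prop) _ _ (by simp)
  have h2 : Tendsto (fun q : E × F => q + (-x, 0)) (𝓝 (x, y)) (𝓝 (0, y)) :=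
    Continuous.tendsto' (by fun_prop) _ _ (by simp)
  obtain ⟨v, hv⟩ := frob_zero (fun q => A (q + (x, 0))) y (by
    filter_upwards [h1.eventually hA] with q hq
    rw [fderiv_comp_add_right]
    exact ⟨(differentiableAt_comp_add_right _).2 hq.1, hq.2⟩)
  refine ⟨fun p => v (p + (-x, 0)), ?_⟩
  filter_upwards [h2.eventually hv] with p hp
  rw [fderiv_comp_add_right]
  refine ⟨(differentiableAt_comp_add_right _).2 hp.1, by simpa using hp.2.1, fun ξ => ?_⟩
  simpa using hp.2.2 ξ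

end Pool.Agent.HS85
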